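import Pool.Agent.Y142.ZI.Stm
import Pool.Agent.Y497.ZO.LogPow

/-!
# Project Y142-ZI (owner helper142), task OPEN: full Lie algebra implies open image
-/

set_option autoImplicit false

open Matrix Filter Topology

namespace Pool.Agent.Y884.ZI

open Pool.Agent.Y142.ZO Pool.Agent.Y142.ZI Pool.Agent.Y497.ZO

attribute [local instance] Matrix.normedAddCommGroup Matrix.normedSpace

variable {ℓ : ℕ} [Fact ℓ.Prime] {N : ℕ}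

local instance ultra : IsUltrametricDist (Mt ℓ N) :=
  inferInstanceAs (IsUltrametricDist (Fin N → Fin N → ℚ_[ℓ]))

local instance prop : ProperSpace (Mt ℓ N) :=
  inferInstanceAs (ProperSpace (Fin N → Fin N → ℚ_[ℓ]))

theorem nsub (A B : Mt ℓ N) : ‖A - B‖ ≤ max ‖A‖ ‖B‖ := by
  rw [sub_eq_add_neg, ← norm_neg B]
  exact IsUltrametricDist.norm_add_le_max _ _

/-- uniform approximation of the skew matrices by elements of the group -/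
theorem key {G : Type} [Group G] (ρ : G →* Mt ℓ N) (B : Mt ℓ N) (hF : FullLie ℓ ρ B) :
    ∃ n0 : ℕ, ∀ n, n0 ≤ n → ∀ X : Mt ℓ N, Skew B X → ‖X‖ ≤ 1 →
      ∃ σ : G, ‖ρ σ - (1 + (ℓ : ℚ_[ℓ]) ^ n • X)‖ ≤ ((ℓ : ℝ) ^ (n + 1))⁻¹ := by
  have hl : (0 : ℝ) < (ℓ : ℝ)⁻¹ := inv_pos.2 lR_pos
  have h1 : ∀ X : Mt ℓ N, Skew B X → ∃ n0 : ℕ, ∀ n, n0 ≤ n → ∃ σ : G,
      ‖((ℓ : ℚ_[ℓ]) ^ n)⁻¹ • (ρ σ - 1) - X‖ < (ℓ : ℝ)⁻¹ := by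
    intro X hX
    obtain ⟨σ, hσ⟩ := hF X hX
    have h2 := Metric.tendsto_atTop.1 hσ (ℓ : ℝ)⁻¹ hl
    obtain ⟨n0, h3⟩ := h2
    refine ⟨n0, fun n hn => ⟨σ n, ?_⟩⟩
    have h4 := h3 n hn
    rwa [dist_eq_norm] at h4
  choose! f hf using h1
  have hc : IsCompact ({X : Mt ℓ N | Skew B X} ∩ Metric.closedBall 0 1) := by
    refine IsCompact.inter_left (isCompact_closedBall _ _) ?_
    unfold Skew
    refine isClosed_eq ?_ ?_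
    · exact (continuous_const.mul continuous_id).matrix_transpose
    · exact (continuous_const.mul continuous_id).neg
  obtain ⟨t, ht1, ht2⟩ := hc.elim_nhds_subcover (fun X => Metric.ball X (ℓ : ℝ)⁻¹)
    (fun X _ => Metric.ball_mem_nhds X hl)
  refine ⟨t.sup f, fun n hn X hX hX1 => ?_⟩
  have h2 : X ∈ ⋃ Y ∈ t, Metric.ball Y (ℓ : ℝ)⁻¹ := by
    refine ht2 ⟨hX, ?_⟩
    rw [mem_closedBall_zero_iff]
    exact hX1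
  simp only [Set.mem_iUnion] at h2
  obtain ⟨Y, hY, hXY⟩ := h2
  rw [Metric.mem_ball, dist_eq_norm] at hXY
  obtain ⟨σ, hσ⟩ := hf Y (ht1 Y hY).1 n ((Finset.le_sup hY).trans hn)
  refine ⟨σ, ?_⟩
  have h3 : ρ σ - (1 + (ℓ : ℚ_[ℓ]) ^ n • X) =
      (ℓ : ℚ_[ℓ]) ^ n • ((((ℓ : ℚ_[ℓ]) ^ n)⁻¹ • (ρ σ - 1) - Y) - (X - Y)) := by
    rw [sub_sub_sub_cancel_right, smul_sub, smul_smul,
      mul_inv_cancel₀ (pow_ne_zero _ l_ne), one_smul]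
    abel
  rw [h3, norm_smul, norm_l_pow, pow_succ, mul_inv]
  refine mul_le_mul_of_nonneg_left ?_ (by positivity)
  exact (nsub _ _).trans (max_le hσ.le hXY.le)

/-- the inverse of a matrix near `1` -/
theorem ninv {A A' : Mt ℓ N} (h : A' * A = 1) (hA : ‖A - 1‖ < 1) : ‖A'‖ ≤ 1 := by
  by_contra hcon
  push Not at hcon
  have h1 : A' = 1 - A' * (A - 1) := by
    rw [mul_sub, h, mul_one]
    abel
  have h2 : ‖A'‖ ≤ max ‖(1 : Mt ℓ N)‖ ‖A' * (A - 1)‖ := by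
    conv_lhs => rw [h1]
    exact nsub _ _
  have h3 : ‖A' * (A - 1)‖ < ‖A'‖ := by
    refine (nmul _ _).trans_lt ?_
    have : 0 < ‖A'‖ := by linarith
    nlinarith
  rcases le_max_iff.1 h2 with h4 | h4
  · exact absurd (h4.trans none') (not_le.2 hcon)
  · exact absurd h4 (not_le.2 h3)

theorem isom_mul {B A g : Mt ℓ N} (hA : Isom B A) (hg : Isom B g) : Isom B (A * g) := by
  unfold Isom at *
  rw [transpose_mul]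
  calc gᵀ * Aᵀ * B * (A * g) = gᵀ * (Aᵀ * B * A) * g := by noncomm_ring
    _ = B := by rw [hA, hg]

/-- one step of the successive approximation -/
theorem step1 {G : Type} [Group G] (ρ : G →* Mt ℓ N) (B : Mt ℓ N) (hB : Bᵀ = B)
    (hd : B.det ≠ 0) (hF : FullLie ℓ ρ B) :
    ∃ n1 : ℕ, ∀ n, n1 ≤ n → ∀ g : Mt ℓ N, Isom B g → ‖g - 1‖ ≤ ((ℓ : ℝ) ^ n)⁻¹ →
      ∃ σ : G, ‖ρ σ⁻¹ * g - 1‖ ≤ ((ℓ : ℝ) ^ (n + 1))⁻¹ := by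
  obtain ⟨n0, hn0⟩ := key ρ B hF
  have hl1 : (1 : ℝ) < ℓ := by exact_mod_cast (Fact.out : ℓ.Prime).one_lt
  have hl0 : (0 : ℝ) < ℓ := lR_pos
  obtain ⟨C, hC⟩ : ∃ C : ℝ, C = ‖(2 : ℚ_[ℓ])⁻¹‖ * (‖B⁻¹‖ * ‖B‖) := ⟨_, rfl⟩
  have hC0 : 0 ≤ C := by
    rw [hC]
    positivity
  obtain ⟨n2, hn2⟩ := pow_unbounded_of_one_lt (ℓ * C) hl1
  refine ⟨n0 + n2 + 1, fun n hn g hg hg1 => ?_⟩
  have hU : IsUnit B.det := isUnit_iff_ne_zero.2 hd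
  have hBB : B * B⁻¹ = 1 := Matrix.mul_nonsing_inv B hU
  have hBB' : B⁻¹ * B = 1 := Matrix.nonsing_inv_mul B hU
  obtain ⟨Y, hY⟩ : ∃ Y : Mt ℓ N, Y = ((ℓ : ℚ_[ℓ]) ^ n)⁻¹ • (g - 1) := ⟨_, rfl⟩
  have hgY : g = 1 + (ℓ : ℚ_[ℓ]) ^ n • Y := by
    rw [hY, smul_smul, mul_inv_cancel₀ (pow_ne_zero _ l_ne), one_smul]
    abel
  have hY1 : ‖Y‖ ≤ 1 := by
    rw [hY, norm_smul, norm_inv, norm_l_pow, inv_inv]
    calc (ℓ : ℝ) ^ n * ‖g - 1‖ ≤ (ℓ : ℝ) ^ n * ((ℓ : ℝ) ^ n)⁻¹ := by gcongr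
      _ = 1 := mul_inv_cancel₀ (by positivity)
  have hrel : Yᵀ * B + B * Y = -((ℓ : ℚ_[ℓ]) ^ n • (Yᵀ * B * Y)) := by
    have h1 : gᵀ * B * g = B := hg
    rw [hgY, transpose_add, transpose_one, transpose_smul] at h1
    have h2 : (1 + (ℓ : ℚ_[ℓ]) ^ n • Yᵀ) * B * (1 + (ℓ : ℚ_[ℓ]) ^ n • Y) =
        B + (ℓ : ℚ_[ℓ]) ^ n • (Yᵀ * B + B * Y + (ℓ : ℚ_[ℓ]) ^ n • (Yᵀ * B * Y)) := by
      simp only [add_mul, mul_add, one_mul, mul_one, smul_mul_assoc, mul_smul_comm, smul_add]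
      abel
    rw [h2] at h1
    have h3 : (ℓ : ℚ_[ℓ]) ^ n • (Yᵀ * B + B * Y + (ℓ : ℚ_[ℓ]) ^ n • (Yᵀ * B * Y)) = 0 := by
      simpa using h1
    rcases smul_eq_zero.1 h3 with h4 | h4
    · exact absurd h4 (pow_ne_zero _ l_ne)
    · exact eq_neg_of_add_eq_zero_left h4
  obtain ⟨X, hX⟩ : ∃ X : Mt ℓ N, X = (2 : ℚ_[ℓ])⁻¹ • (Y - B⁻¹ * (Yᵀ * B)) := ⟨_, rfl⟩
  have hXs : Skew B X := by
    unfold Skew
    have h1 : B * X = (2 : ℚ_[ℓ])⁻¹ • (B * Y - Yᵀ * B) := by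
      rw [hX, mul_smul_comm, mul_sub, ← mul_assoc B B⁻¹, hBB, one_mul]
    rw [h1, transpose_smul, transpose_sub, transpose_mul, transpose_mul, transpose_transpose, hB,
      ← smul_neg]
    congr 1
    abel
  have hXY : ‖Y - X‖ ≤ (ℓ : ℝ)⁻¹ := by
    have h1 : Y - X = (2 : ℚ_[ℓ])⁻¹ • (B⁻¹ * (Yᵀ * B + B * Y)) := by
      have h2 : (2 : ℚ_[ℓ])⁻¹ + (2 : ℚ_[ℓ])⁻¹ = 1 := by norm_num
      have h3 : Y = (2 : ℚ_[ℓ])⁻¹ • Y + (2 : ℚ_[ℓ])⁻¹ • Y := by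
        rw [← add_smul, h2, one_smul]
      rw [mul_add, ← mul_assoc B⁻¹ B, hBB', one_mul, hX]
      conv_lhs => rw [h3]
      simp only [smul_sub, smul_add, ← add_smul, h2, one_smul]
      rw [h3]
      simp only [← add_smul, h2, one_smul]
      rw [show (2 : ℚ_[ℓ])⁻¹ • (B⁻¹ * (Yᵀ * B)) + (2 : ℚ_[ℓ])⁻¹ • Y = 
        (2 : ℚ_[ℓ])⁻¹ • (B⁻¹ * (Yᵀ * B)) + (Y - (2 : ℚ_[ℓ])⁻¹ • Y) by
          conv_lhs => rw [← add_sub_cancel_right ((2 : ℚ_[ℓ])⁻¹ • Y) ((2 : ℚ_[ℓ])⁻¹ • Y), ← h3]]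
      abel
    rw [h1, hrel, norm_smul]
    have h4 : ‖B⁻¹ * -((ℓ : ℚ_[ℓ]) ^ n • (Yᵀ * B * Y))‖ ≤
        ‖B⁻¹‖ * (((ℓ : ℝ) ^ n)⁻¹ * (1 * ‖B‖ * 1)) := by
      refine (nmul _ _).trans ?_
      rw [norm_neg, norm_smul, norm_l_pow]
      have h5 : ‖Yᵀ * B * Y‖ ≤ 1 * ‖B‖ * 1 := by
        refine (nmul _ _).trans ?_
        have h6 : ‖Yᵀ * B‖ ≤ 1 * ‖B‖ := by
          refine (nmul _ _).trans ?_
          rw [Matrix.norm_transpose]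
          gcongr
        gcongr
      gcongr
    calc ‖(2 : ℚ_[ℓ])⁻¹‖ * ‖B⁻¹ * -((ℓ : ℚ_[ℓ]) ^ n • (Yᵀ * B * Y))‖
        ≤ ‖(2 : ℚ_[ℓ])⁻¹‖ * (‖B⁻¹‖ * (((ℓ : ℝ) ^ n)⁻¹ * (1 * ‖B‖ * 1))) := by gcongr
      _ = C * ((ℓ : ℝ) ^ n)⁻¹ := by rw [hC]; ring
      _ ≤ (ℓ : ℝ)⁻¹ := by
        have h7 : (ℓ : ℝ) ^ n2 ≤ (ℓ : ℝ) ^ n := pow_le_pow_right₀ hl1.le (by omega)
        rw [mul_inv_le_iff₀ (by positivity), inv_mul_eq_div, le_div_iff₀ hl0]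
        linarith
  have hX1 : ‖X‖ ≤ 1 := by
    have h1 : X = Y - (Y - X) := by abel
    rw [h1]
    exact (nsub _ _).trans
      (max_le hY1 (hXY.trans l_inv_lt.le))
  obtain ⟨σ, hσ⟩ := hn0 n (by omega) X hXs hX1
  have h1 : ‖ρ σ - g‖ ≤ ((ℓ : ℝ) ^ (n + 1))⁻¹ := by
    have h2 : ρ σ - g = (ρ σ - (1 + (ℓ : ℚ_[ℓ]) ^ n • X)) - (ℓ : ℚ_[ℓ]) ^ n • (Y - X) := by
      rw [hgY, smul_sub]
      abel
    rw [h2]
    refine (nsub _ _).trans (max_le hσ ?_)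
    rw [norm_smul, norm_l_pow, pow_succ, mul_inv]
    gcongr
  have h2 : ‖ρ σ - 1‖ < 1 := by
    have h3 : ρ σ - 1 = (ρ σ - g) + (g - 1) := by abel
    rw [h3]
    refine (IsUltrametricDist.norm_add_le_max _ _).trans_lt (max_lt ?_ ?_)
    · refine h1.trans_lt ?_
      exact inv_lt_one_of_one_lt₀ (one_lt_pow₀ hl1 (by omega))
    · refine hg1.trans_lt ?_
      exact inv_lt_one_of_one_lt₀ (one_lt_pow₀ hl1 (by omega))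
  have h3 : ρ σ⁻¹ * ρ σ = 1 := by rw [← map_mul, inv_mul_cancel, map_one]
  refine ⟨σ, ?_⟩
  have h4 : ρ σ⁻¹ * g - 1 = -(ρ σ⁻¹ * (ρ σ - g)) := by
    rw [mul_sub, h3]
    abel
  rw [h4, norm_neg]
  calc ‖ρ σ⁻¹ * (ρ σ - g)‖ ≤ ‖ρ σ⁻¹‖ * ‖ρ σ - g‖ := nmul _ _
    _ ≤ 1 * ((ℓ : ℝ) ^ (n + 1))⁻¹ := by
      gcongr
      exact ninv h3 h2
    _ = _ := one_mul _

/-- task OPEN -/
theorem t : S_OPEN := by
  intro ℓ _ N G _ _ _ _ ρ hρ B hB hd hI hF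
  obtain ⟨n1, hn1⟩ := step1 ρ B hB hd hF
  have hl1 : (1 : ℝ) < ℓ := by exact_mod_cast (Fact.out : ℓ.Prime).one_lt
  have hl0 : (0 : ℝ) < ℓ := by linarith
  refine ⟨((ℓ : ℝ) ^ n1)⁻¹, by positivity, fun g hg hg1 => ?_⟩
  have h1 : ∀ k : ℕ, ∃ σ : G, ‖ρ σ⁻¹ * g - 1‖ ≤ ((ℓ : ℝ) ^ (n1 + k))⁻¹ := by
    intro k
    induction k with
    | zero =>
      refine ⟨1, ?_⟩
      rw [inv_one, map_one, one_mul, add_zero, Matrix.norm_le_iff (by positivity)]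
      exact fun i j => (hg1 i j).le
    | succ k ih =>
      obtain ⟨σ, hσ⟩ := ih
      obtain ⟨τ, hτ⟩ := hn1 (n1 + k) (by omega) (ρ σ⁻¹ * g) (isom_mul (hI _) hg) hσ
      refine ⟨σ * τ, ?_⟩
      rw [_root_.mul_inv_rev, map_mul, mul_assoc]
      exact hτ
  have hc : IsCompact (Set.range ρ) := isCompact_range hρ
  obtain ⟨M, hM⟩ := hc.isBounded.exists_norm_le
  have hM0 : 0 ≤ M := (norm_nonneg _).trans (hM (ρ 1) ⟨1, rfl⟩)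
  have h2 : g ∈ closure (Set.range ρ) := by
    refine Metric.mem_closure_iff.2 fun ε hε => ?_
    obtain ⟨k, hk⟩ := pow_unbounded_of_one_lt (M / ε) hl1
    obtain ⟨σ, hσ⟩ := h1 k
    refine ⟨ρ σ, ⟨σ, rfl⟩, ?_⟩
    have h3 : ρ σ * ρ σ⁻¹ = 1 := by rw [← map_mul, mul_inv_cancel, map_one]
    have h4 : g - ρ σ = ρ σ * (ρ σ⁻¹ * g - 1) := by
      rw [mul_sub, ← mul_assoc, h3, one_mul, mul_one]
    rw [dist_eq_norm, h4]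
    calc ‖ρ σ * (ρ σ⁻¹ * g - 1)‖ ≤ ‖ρ σ‖ * ‖ρ σ⁻¹ * g - 1‖ := nmul _ _
      _ ≤ M * ((ℓ : ℝ) ^ (n1 + k))⁻¹ := by
        gcongr
        exact hM _ ⟨σ, rfl⟩
      _ < ε := by
        have h5 : (ℓ : ℝ) ^ k ≤ (ℓ : ℝ) ^ (n1 + k) := pow_le_pow_right₀ hl1.le (by omega)
        rw [mul_inv_lt_iff₀ (by positivity)]
        rw [div_lt_iff₀ hε] at hk
        nlinarith
  rw [hc.isClosed.closure_eq] at h2
  obtain ⟨σ, hσ⟩ := h2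
  exact ⟨σ, hσ⟩

end Pool.Agent.Y884.ZI
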